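import Pool.Agent.Lib.MP_185924_lc.ZY.Multi

/-! Several colours: an independent set joined to a Zykov graph. The two lemmas `stuck'` and
`indep_of_thin` repeat the main induction with the thinning lemma as a hypothesis. -/

set_option autoImplicit false

namespace Pool.Agent.Lib.MP_185924_lc.ZY

open Set

section

variable {W K : Type} [LinearOrder W]

/-- the conclusion of the thinning lemma -/
def Thin (adj : K → W × W → W × W → Prop) (n : ℕ) : Prop :=
  ∀ α : ℕ → W, StrictMono α → ∀ X : Set (W × W), {m | ¬ (X ∩ Col (α m)).Countable}.Infinite →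
    (∀ c, Full adj n c univ X ∨ ∀ m m', m < m' → ∀ y ∈ X ∩ Col (α m'),
      (X ∩ Col (α m) ∩ Nb adj c y).Countable) → Indep adj

theorem stuck' [Finite K] {adj : K → W × W → W × W → Prop} {n : ℕ}
    (hf : Thin adj n) (hI : ¬ Indep adj) {ξ : W} {B : Set (W × W)} (hB : B ∈ Alg adj ξ)
    {zs : W × W} (hz : ξ ≤ zs.1) (hzB : zs ∈ B) (S : Set K) (Z : Finset (W × W))
    (hZ : ∀ Y, CS adj ξ Y → Y ⊆ B → (↑Z : Set (W × W)) ⊆ Good adj S Y →
      ∃ T : K → Finset (W × W), (∀ c, T c ⊆ Z ∧ (c ∈ S → n ≤ (T c).card)) ∧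
        ¬ (Y ∩ {y | ∀ c, ∀ z ∈ T c, adj c z y}).Countable) :
    ∃ B' ∈ Alg adj ξ, zs ∈ B' ∧ ∀ Y, CS adj ξ Y → Y ⊆ B' →
      ¬ (insert zs (↑Z : Set (W × W)) ⊆ Good adj S Y) := by
  classical
  by_contra hcon
  push Not at hcon
  have step : ∀ D : {D : Set (W × W) // D ∈ Alg adj ξ ∧ zs ∈ D ∧ D ⊆ B},
      ∃ D' : {D : Set (W × W) // D ∈ Alg adj ξ ∧ zs ∈ D ∧ D ⊆ B}, ∃ Y a,
        CS adj ξ Y ∧ Y ⊆ D.1 ∧ Y ⊆ Col a ∧ (↑Z : Set (W × W)) ⊆ Good adj S Y ∧
        D'.1 ⊆ D.1 ∧ D'.1 ⊆ Good adj S Y ∧ D'.1 ⊆ {x | a < x.1} := by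
    rintro ⟨D, d1, d2, d3⟩
    obtain ⟨Y, y1, y2, y3⟩ := hcon D d1 d2
    obtain ⟨a, ha, haY⟩ := y1.2.1
    exact ⟨⟨D ∩ Good adj S Y ∩ {x | a < x.1},
      alg_inter (alg_inter d1 (alg_good S y1.1)) (alg_gt ha),
      ⟨⟨d2, y3 (mem_insert _ _)⟩, ha.trans_le hz⟩,
      (inter_subset_left.trans inter_subset_left).trans d3⟩, Y, a, y1, y2, haY,
      (subset_insert _ _).trans y3, inter_subset_left.trans inter_subset_left,
      inter_subset_left.trans inter_subset_right, inter_subset_right⟩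
  choose nx Y a k1 k2 k3 k4 k5 k6 k7 using step
  let D : ℕ → {D : Set (W × W) // D ∈ Alg adj ξ ∧ zs ∈ D ∧ D ⊆ B} :=
    fun i => nx^[i] ⟨B, hB, hzB, Subset.rfl⟩
  have hD : ∀ i, D (i + 1) = nx (D i) := fun i => Function.iterate_succ_apply' nx i _
  have anti : Antitone fun i => (D i).1 := antitone_nat_of_succ_le fun i => by
    rw [hD]; exact k5 _
  have later : ∀ i j, i < j → Y (D j) ⊆ (nx (D i)).1 := fun i j h => by
    rw [← hD]; exact (k2 _).trans (anti h)
  have hα : StrictMono fun i => a (D i) := fun i j h => by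
    obtain ⟨y, hy⟩ : (Y (D j)).Nonempty := by
      by_contra hne
      rw [not_nonempty_iff_eq_empty] at hne
      exact (k1 (D j)).2.2 (by rw [hne]; exact countable_empty)
    have h1 : a (D i) < y.1 := k7 _ (later i j h hy)
    have h2 : y.1 = a (D j) := k3 _ hy
    exact lt_of_lt_of_eq h1 h2
  choose T hT hT' using fun i => hZ (Y (D i)) (k1 _) ((k2 _).trans (D i).2.2.2) (k4 _)
  obtain ⟨T0, hT0⟩ := Finite.exists_infinite_fiber
    (fun i => (fun c => ⟨T i c, Finset.mem_powerset.2 (hT i c).1⟩ : K → Z.powerset))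
  have hinf : {i | T i = fun c => (T0 c).1}.Infinite := by
    rw [infinite_coe_iff] at hT0
    refine hT0.mono fun i hi => ?_
    have hi' : (fun c => (⟨T i c, Finset.mem_powerset.2 (hT i c).1⟩ : Z.powerset)) = T0 := hi
    funext c
    rw [← hi']
  have hmem : ∀ m y, y ∈ (⋃ i, Y (D i)) → y ∈ Col (a (D m)) → y ∈ Y (D m) := by
    intro m y hy hy'
    obtain ⟨i, hi⟩ := mem_iUnion.1 hy
    have h2 : y.1 = a (D i) := k3 _ hi
    have h3 : y.1 = a (D m) := hy'
    have : i = m := hα.injective (h2.symm.trans h3)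
    exact this ▸ hi
  refine hI (hf (fun i => a (D i)) hα
    ((⋃ i, Y (D i)) ∩ {y | ∀ c, ∀ z ∈ (T0 c).1, adj c z y}) (hinf.mono fun i hi hh => ?_)
    fun c => ?_)
  · refine hT' i (hh.mono ?_)
    rintro y ⟨hy, hy'⟩
    have hi' : T i = fun c => (T0 c).1 := hi
    rw [hi'] at hy'
    exact ⟨⟨mem_iUnion.2 ⟨i, hy⟩, hy'⟩, k3 _ hy⟩
  · by_cases hcS : c ∈ S
    · obtain ⟨i, hi⟩ := hinf.nonempty
      have hi' : T i = fun c => (T0 c).1 := hi
      have := (hT i c).2 hcS
      rw [hi'] at this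
      exact Or.inl ⟨(T0 c).1, this, subset_univ _, fun x hx y hy => hy.2 c x hx⟩
    · refine Or.inr fun m m' h y hy => ?_
      have h1 : y ∈ Good adj S (Y (D m)) := k6 _ (later m m' h (hmem m' y hy.1.1 hy.2))
      exact (h1 c hcS).mono (inter_subset_inter_left _ fun w hw => hmem m w hw.1.1 hw.2)

theorem indep_of_thin [WellFoundedLT W] [Uncountable W] [Finite K]
    (hc : ∀ a : W, (Iic a).Countable) {adj : K → W × W → W × W → Prop}
    {n : ℕ} (hf : Thin adj n) : Indep adj := by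
  classical
  have := Fintype.ofFinite K
  by_contra hI
  choose zs hz1 hz2 using exists_generic hc adj
  have key : ∀ s : ℕ, ∃ E : Set W, ∃ B, Stat E ∧
      ∀ ξ ∈ E, B ∈ Alg adj ξ ∧ zs ξ ∈ B ∧ ∃ Z, Sees adj s ξ B Z := by
    intro s
    induction s with
    | zero =>
      exact ⟨_, univ, stat_pos hc, fun ξ hξ => ⟨alg_univ hξ, trivial, ∅, by simp,
        fun _ _ _ _ h => absurd h (Nat.not_lt_zero _)⟩⟩
    | succ s ih =>
      obtain ⟨E, B, hE, hB⟩ := ih
      obtain ⟨B', hB'⟩ := hE.fodor hc (fun η => ⋃ m, lev adj η m)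
        (fun η => countable_iUnion fun m => lev_countable hc adj η m)
        (fun ξ B' => B' ∈ Alg adj ξ ∧ zs ξ ∈ B' ∧ ∃ Z, Sees adj (s + 1) ξ B' Z) (by
          intro ξ hξ
          have h1 : ∀ S : Finset K, ∃ Z : Finset (W × W), ∃ B' ∈ Alg adj ξ,
              (∀ z ∈ Z, ξ ≤ z.1) ∧ zs ξ ∈ B' ∧ (S.card ≤ s → ∀ Y, CS adj ξ Y → Y ⊆ B' →
                ¬ (insert (zs ξ) (↑Z : Set (W × W)) ⊆ Good adj ↑S Y)) := by
            intro S
            by_cases hS : S.card ≤ s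
            · obtain ⟨Z, g1, g2⟩ := realize hc hE (fun ξ h => (hB ξ h).2.2) S hS (n • S.val)
                (fun c h => Multiset.mem_of_mem_nsmul h) ξ hξ
              obtain ⟨B', b1, b2, b3⟩ := stuck' hf hI (hB ξ hξ).1 (hz1 ξ) (hB ξ hξ).2.1 ↑S Z
                (fun Y y1 y2 y3 => by
                  obtain ⟨T, t1, t2⟩ := g2 Y y1 y2 y3
                  refine ⟨T, fun c => ⟨(t1 c).1, fun hcS => ?_⟩, t2⟩
                  have := (t1 c).2
                  rwa [Multiset.count_nsmul, Multiset.count_eq_one_of_mem S.nodup hcS,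
                    mul_one] at this)
              exact ⟨Z, B', b1, g1, b2, fun _ => b3⟩
            · exact ⟨∅, B, (hB ξ hξ).1, by simp, (hB ξ hξ).2.1, fun h => absurd h hS⟩
          choose Z B' b1 b2 b3 b4 using h1
          have hA := alg_finset Finset.univ B (hB ξ hξ).1 B' fun S _ => b1 S
          obtain ⟨η, hη, m, hm⟩ := id hA
          refine ⟨η, hη, _, mem_iUnion.2 ⟨m, hm⟩, hA, ⟨(hB ξ hξ).2.1, by simpa using b3⟩,
            insert (zs ξ) (Finset.univ.biUnion Z), fun z hz => ?_, fun Y y1 y2 S hS hh => ?_⟩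
          · rcases Finset.mem_insert.1 hz with rfl | hz
            · exact hz1 ξ
            · obtain ⟨S, -, hS⟩ := Finset.mem_biUnion.1 hz
              exact b2 S z hS
          · refine b4 S (Nat.lt_succ_iff.1 hS) Y y1 (fun y hy => ?_) (Subset.trans ?_ hh)
            · have := (y2 hy).2
              simp only [Finset.mem_univ, iInter_true, mem_iInter] at this
              exact this S
            · rw [Finset.coe_insert]
              exact insert_subset_insert fun z hz => Finset.mem_coe.2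
                (Finset.mem_biUnion.2 ⟨S, Finset.mem_univ _, hz⟩))
      exact ⟨_, B', hB', fun ξ hξ => hξ.2⟩
  obtain ⟨E, B, hE, hB⟩ := key (Fintype.card K + 1)
  obtain ⟨g, hg⟩ := exists_closure hc adj
  obtain ⟨ξ, hξ, -, hcl⟩ := hE g
  obtain ⟨b1, b2, Z, -, b3⟩ := hB ξ hξ
  obtain ⟨η, hη, m, hm⟩ := id b1
  obtain ⟨a, ha, ha'⟩ := hg η m B hm (hz2 ξ B b1 b2)
  have haξ : a < ξ := ha.trans (hcl η hη)
  exact b3 (B ∩ Col a) ⟨alg_inter b1 (alg_col haξ), ⟨a, haξ, inter_subset_right⟩, ha'⟩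
    inter_subset_left Finset.univ (by simp) fun z _ c hc => absurd (by simp) hc

theorem indep_or_cone [WellFoundedLT W] [Uncountable W] [Finite K]
    (hc : ∀ a : W, (Iic a).Countable) {adj : K → W × W → W × W → Prop}
    (hs : ∀ c x y, adj c x y → adj c y x) (hirr : ∀ c x, ¬ adj c x x)
    {V : Type} [Finite V] {G : SimpleGraph V} {I : Set V} (hI : G.IsIndepSet I)
    (hZ : ZykovOn G Iᶜ) : Indep adj ∨ ∃ c, ∃ φ : V → W × W, Function.Injective φ ∧
      ∀ u v, G.Adj u v → adj c (φ u) (φ v) := by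
  classical
  have := Fintype.ofFinite K
  rw [or_iff_not_imp_right]
  intro hcon
  obtain ⟨n, ⟨e⟩⟩ := Finite.exists_equiv_fin V
  have hK : Bd adj (∑ _c : K, n) univ := by
    refine ⟨fun _ => n, le_rfl, fun c => ?_⟩
    rintro ⟨f, -, h⟩
    refine hcon ⟨c, f ∘ e, fun u v huv => ?_, fun u v huv =>
      h _ _ fun h' => huv.ne (e.injective h')⟩
    by_contra hne
    have := h _ _ fun h' => hne (e.injective h')
    rw [show f (e u) = f (e v) from huv] at this
    exact hirr _ _ this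
  refine indep_of_thin hc (n := n) fun α hα X hX hd => ?_
  have hcols : cols (X ∩ ⋃ m, Col (α m)) ⊆ range α := fun a ha => by
    by_contra hn
    refine ha (countable_empty.mono fun x hx => ?_)
    obtain ⟨m, hm⟩ := mem_iUnion.1 hx.1.2
    exact hn ⟨m, hm.symm.trans hx.2⟩
  refine thin_multi hc hs hK (fun c T => Full adj n c univ T)
    (fun c T T' h h' => h.mono Subset.rfl h') (fun c T hF hT ht => ?_) Finset.univ
    (X ∩ ⋃ m, Col (α m)) ((hX.image hα.injective.injOn).mono ?_) (fun a ha => ?_) fun c => ?_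
  · obtain ⟨P, p1, -, p3⟩ := hF
    obtain ⟨φ, hφ⟩ := embed_one (hs c) ht hZ (fun _ => T) fun _ _ => ⟨Subset.rfl, hT⟩
    obtain ⟨g⟩ : Nonempty (Fin n ↪ P) :=
      Function.Embedding.nonempty_of_card_le (by simpa using p1)
    have h1 : Emb G (adj c) I (fun _ => ↑P) fun v => g (e v) :=
      ⟨fun u _ v _ h => e.injective (g.injective (Subtype.ext h)),
        fun u hu v hv h => absurd h (hI hu hv h.ne), fun v _ => (g (e v)).2⟩
    rw [compl_eq_univ_sdiff] at hφ
    obtain ⟨χ, hχ, -⟩ := Emb.glue (A := univ) (L := fun _ => univ) (hs c) h1 hφ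
      (fun _ _ => subset_univ _) (fun _ _ => subset_univ _)
      (fun u _ v hv h => hirr c _ (h ▸ p3 _ (g (e u)).2 _ (hφ.2.2 v hv)))
      (fun u _ v hv _ => p3 _ (g (e u)).2 _ (hφ.2.2 v hv))
    exact hcon ⟨c, χ, injOn_univ.1 hχ.1, fun u v h => hχ.2.1 u trivial v trivial h⟩
  · rintro _ ⟨m, hm, rfl⟩ hh
    exact hm (hh.mono fun x hx => mem_inter (mem_inter hx.1 (mem_iUnion.2 ⟨m, hx.2⟩)) hx.2)
  · obtain ⟨m, rfl⟩ := hcols ha
    refine ((finite_Iic m).image α).subset fun b hb => ?_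
    obtain ⟨m', rfl⟩ := hcols hb.1
    exact ⟨m', hα.le_iff_le.1 hb.2, rfl⟩
  · rcases hd c with h | h
    · exact Or.inl ⟨Finset.mem_univ _, h.mono Subset.rfl inter_subset_left⟩
    · refine Or.inr fun a y hy ha => ?_
      obtain ⟨m', hm'⟩ := mem_iUnion.1 hy.2
      by_cases hr : ∃ m, α m = a
      · obtain ⟨m, rfl⟩ := hr
        exact (h m m' (hα.lt_iff_lt.1 (lt_of_lt_of_eq ha hm')) y ⟨hy.1, hm'⟩).mono
          (inter_subset_inter_left _ (inter_subset_inter_left _ inter_subset_left))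
      · refine countable_empty.mono fun w hw => ?_
        obtain ⟨m, hm⟩ := mem_iUnion.1 hw.1.1.2
        exact hr ⟨m, hm.symm.trans hw.1.2⟩

end

theorem main_cone (k : ℕ) {V : Type} [Finite V] {G : SimpleGraph V} {I : Set V}
    (hI : G.IsIndepSet I) (hZ : ZykovOn G Iᶜ) (c : Sym2 Ordinal.{0} → Fin (k + 1)) :
    (∃ f : Ordinal.{0} → Ordinal.{0},
        StrictMonoOn f (Set.Iio ((Cardinal.aleph 1).ord * Ordinal.omega0)) ∧
        (∀ α, α < (Cardinal.aleph 1).ord * Ordinal.omega0 →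
            f α < (Cardinal.aleph 1).ord * (Cardinal.aleph 1).ord) ∧
        (∀ α β, α < β → β < (Cardinal.aleph 1).ord * Ordinal.omega0 → c s(f α, f β) = 0)) ∨
    ∃ i : Fin (k + 1), i ≠ 0 ∧ ∃ g : V → Ordinal.{0}, Function.Injective g ∧
      (∀ v, g v < (Cardinal.aleph 1).ord * (Cardinal.aleph 1).ord) ∧
      ∀ u v, G.Adj u v → c s(g u, g v) = i := by
  have := uncountable_W1
  rcases indep_or_cone (adj := fun (i : Fin k) x y => x ≠ y ∧ c s(pos x, pos y) = i.succ)
    countable_Iic_W1 (fun _ x y h => ⟨h.1.symm, by rw [Sym2.eq_swap]; exact h.2⟩)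
    (fun _ x h => h.1 rfl) hI hZ with h | ⟨i, φ, h1, h2⟩
  · refine Or.inl (left_of_indep c 0 _ (fun x y hxy hc => ?_) h)
    obtain ⟨i, hi⟩ := Fin.exists_succ_eq.2 hc
    exact ⟨i, hxy, hi.symm⟩
  · exact Or.inr ⟨i.succ, Fin.succ_ne_zero i, pos ∘ φ, pos_inj.comp h1, fun v => pos_lt _,
      fun u v h => (h2 u v h).2⟩

end Pool.Agent.Lib.MP_185924_lc.ZY
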