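import Mathlib

/-! Zykov graphs and two-level Zykov graphs, through splitting sets. -/

set_option autoImplicit false

namespace Pool.Agent.Lib.MP_185924_lc.ZY

variable {V : Type}

/-- `S` is a splitting set of `A`: a nonempty subset of `A` each of whose points has at most one
neighbour in every connected component of the graph induced on `A \ S`. -/
def Splits (G : SimpleGraph V) (S A : Set V) : Prop :=
  S.Nonempty ∧ S ⊆ A ∧ ∀ s ∈ S, ∀ u ∈ A \ S, ∀ v ∈ A \ S, G.Adj s u → G.Adj s v →
    Relation.ReflTransGen (fun a b => G.Adj a b ∧ b ∈ A \ S) u v → u = v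

/-- `G` induces a Zykov graph on `B`: every nonempty subset of `B` has an independent splitting
set. -/
def ZykovOn (G : SimpleGraph V) (B : Set V) : Prop :=
  ∀ A ⊆ B, A.Nonempty → ∃ S, Splits G S A ∧ G.IsIndepSet S

/-- `G` is a two-level Zykov graph: every nonempty set of vertices has a splitting set on which
`G` induces a Zykov graph. -/
def TwoLevel (G : SimpleGraph V) : Prop :=
  ∀ A : Set V, A.Nonempty → ∃ S, Splits G S A ∧ ZykovOn G S

end Pool.Agent.Lib.MP_185924_lc.ZY
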