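import Pool.Agent.Lib.MP_185924_lc.ZY.Defs

/-! The abstract embedding lemma along splitting sets. -/

set_option autoImplicit false

namespace Pool.Agent.Lib.MP_185924_lc.ZY

open Set

variable {V X : Type} {G : SimpleGraph V} {adj : X → X → Prop}

/-- `φ` embeds `G` on `A` with values in the lists `L`. -/
def Emb (G : SimpleGraph V) (adj : X → X → Prop) (A : Set V) (L : V → Set X) (φ : V → X) : Prop :=
  InjOn φ A ∧ (∀ u ∈ A, ∀ v ∈ A, G.Adj u v → adj (φ u) (φ v)) ∧ ∀ v ∈ A, φ v ∈ L v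

theorem Emb.glue {A C : Set V} {L L1 L2 : V → Set X} {φ ψ : V → X}
    (hs : ∀ x y, adj x y → adj y x) (h1 : Emb G adj C L1 φ) (h2 : Emb G adj (A \ C) L2 ψ)
    (hL1 : ∀ v ∈ C, L1 v ⊆ L v) (hL2 : ∀ v ∈ A \ C, L2 v ⊆ L v)
    (hne : ∀ u ∈ C, ∀ v ∈ A \ C, φ u ≠ ψ v)
    (hadj : ∀ u ∈ C, ∀ v ∈ A \ C, G.Adj u v → adj (φ u) (ψ v)) :
    ∃ χ, Emb G adj A L χ ∧ (∀ v ∈ C, χ v = φ v) ∧ ∀ v ∈ A \ C, χ v = ψ v := by
  classical
  refine ⟨fun v => if v ∈ C then φ v else ψ v, ⟨fun u hu v hv h => ?_, fun u hu v hv h => ?_,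
    fun v hv => ?_⟩, fun v hv => if_pos hv, fun v hv => if_neg hv.2⟩
  · by_cases e1 : u ∈ C <;> by_cases e2 : v ∈ C <;> simp only [e1, e2, if_true, if_false] at h
    · exact h1.1 e1 e2 h
    · exact absurd h (hne u e1 v ⟨hv, e2⟩)
    · exact absurd h.symm (hne v e2 u ⟨hu, e1⟩)
    · exact h2.1 ⟨hu, e1⟩ ⟨hv, e2⟩ h
  · by_cases e1 : u ∈ C <;> by_cases e2 : v ∈ C <;> simp only [e1, e2, if_true, if_false]
    · exact h1.2.1 u e1 v e2 h
    · exact hadj u e1 v ⟨hv, e2⟩ h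
    · exact hs _ _ (hadj v e2 u ⟨hu, e1⟩ h.symm)
    · exact h2.2.1 u ⟨hu, e1⟩ v ⟨hv, e2⟩ h
  · by_cases e1 : v ∈ C <;> simp only [e1, if_true, if_false]
    · exact hL1 v e1 (h1.2.2 v e1)
    · exact hL2 v ⟨hv, e1⟩ (h2.2.2 v ⟨hv, e1⟩)

variable [Finite V] {Big : (V → Set X) → Prop} {P : Set X → Prop}

theorem big_see
    (see : ∀ L Y, Big L → P Y → Big fun v => L v ∩ {z | P (Y ∩ {y | adj z y})})
    {S : Set V} {Y : V → Set X} (hY : ∀ s ∈ S, P (Y s)) {L : V → Set X} (hL : Big L) :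
    Big fun v => L v ∩ {z | ∀ s ∈ S, P (Y s ∩ {y | adj z y})} := by
  induction S, S.toFinite using Set.Finite.induction_on with
  | empty => simpa using hL
  | @insert a S _ _ ih =>
    have := see _ _ (ih fun s hs => hY s (mem_insert_of_mem _ hs)) (hY a (mem_insert _ _))
    convert this using 2 with v
    ext z
    simp only [mem_inter_iff, mem_ofPred_eq, forall_mem_insert]
    tauto

theorem components (hs : ∀ x y, adj x y → adj y x)
    (see : ∀ L Y, Big L → P Y → Big fun v => L v ∩ {z | P (Y ∩ {y | adj z y})})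
    (fin : ∀ L (F : Set X), Big L → F.Finite → Big fun v => L v \ F)
    [Nonempty X] {S A : Set V} (hS : Splits G S A)
    (hM : ∀ C ⊆ A \ S, ∀ L, Big L → ∃ φ, Emb G adj C L φ) :
    ∀ (k : ℕ) (B : Set V), B.ncard ≤ k → B ⊆ A \ S →
      (∀ a ∈ B, ∀ b ∈ A \ S, G.Adj a b → b ∈ B) → ∀ L (Y : V → Set X), Big L → (∀ s ∈ S, P (Y s)) →
      ∃ φ, Emb G adj B L φ ∧ ∀ s ∈ S, P (Y s ∩ {y | ∀ v ∈ B, G.Adj s v → adj (φ v) y}) := by
  have base : ∀ (L Y : V → Set X), (∀ s ∈ S, P (Y s)) → ∃ φ, Emb G adj ∅ L φ ∧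
      ∀ s ∈ S, P (Y s ∩ {y | ∀ v ∈ (∅ : Set V), G.Adj s v → adj (φ v) y}) := fun L Y hY =>
    ⟨fun _ => Classical.arbitrary X, ⟨by simp, by simp, by simp⟩, by simpa using hY⟩
  intro k
  induction k with
  | zero =>
    intro B hB _ _ L Y _ hY
    obtain rfl : B = ∅ := (ncard_eq_zero B.toFinite).1 (Nat.le_zero.1 hB)
    exact base L Y hY
  | succ k ih =>
    intro B hB hBA hcl L Y hL hY
    rcases B.eq_empty_or_nonempty with rfl | ⟨v0, hv0⟩
    · exact base L Y hY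
    let r : V → V → Prop := fun a b => G.Adj a b ∧ b ∈ A \ S
    let C : Set V := {u | Relation.ReflTransGen r v0 u}
    have hCB : C ⊆ B := fun u hu => by
      induction hu with
      | refl => exact hv0
      | tail _ h ih' => exact hcl _ ih' _ h.2 h.1
    have hback : ∀ u ∈ C, Relation.ReflTransGen r u v0 := fun u hu => by
      induction hu with
      | refl => exact .refl
      | tail h1 h ih' => exact .head ⟨h.1.symm, hBA (hCB h1)⟩ ih'
    have huniq : ∀ s ∈ S, ∀ u ∈ C, ∀ v ∈ C, G.Adj s u → G.Adj s v → u = v :=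
      fun s hs' u hu v hv h1 h2 => hS.2.2 s hs' u (hBA (hCB hu)) v (hBA (hCB hv)) h1 h2
        ((hback u hu).trans hv)
    obtain ⟨φ, hφ⟩ := hM C (hCB.trans hBA) _ (big_see see hY hL)
    have hY1 : ∀ s ∈ S, P (Y s ∩ {y | ∀ v ∈ C, G.Adj s v → adj (φ v) y}) := by
      intro s hs'
      by_cases h : ∃ u ∈ C, G.Adj s u
      · obtain ⟨u, hu, hsu⟩ := h
        have e : {y | ∀ v ∈ C, G.Adj s v → adj (φ v) y} = {y | adj (φ u) y} :=
          Set.ext fun y => ⟨fun h' => h' u hu hsu, fun h' v hv hsv =>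
            huniq s hs' u hu v hv hsu hsv ▸ h'⟩
        rw [e]
        exact (hφ.2.2 u hu).2 s hs'
      · push Not at h
        have e : Y s ∩ {y | ∀ v ∈ C, G.Adj s v → adj (φ v) y} = Y s :=
          inter_eq_left.2 fun y _ v hv hsv => absurd hsv (h v hv)
        rw [e]
        exact hY s hs'
    have hcard : (B \ C).ncard ≤ k := by
      have : (B \ C).ncard < B.ncard :=
        ncard_lt_ncard ⟨sdiff_subset, fun h => (h hv0).2 .refl⟩ B.toFinite
      omega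
    obtain ⟨ψ, hψ, hP⟩ := ih (B \ C) hcard (sdiff_subset.trans hBA)
      (fun a ha b hb hab => ⟨hcl a ha.1 b hb hab, fun hbC =>
        ha.2 (Relation.ReflTransGen.tail hbC ⟨hab.symm, hBA ha.1⟩)⟩)
      _ _ (fin L (φ '' C) hL (C.toFinite.image φ)) hY1
    obtain ⟨χ, hχ, e1, e2⟩ := Emb.glue (L := L) hs hφ hψ (fun _ _ => inter_subset_left)
      (fun _ _ => sdiff_subset) (fun u hu v hv h => (hψ.2.2 v hv).2 ⟨u, hu, h⟩)
      (fun u hu v hv h => absurd (Relation.ReflTransGen.tail hu ⟨h, hBA hv.1⟩) hv.2)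
    refine ⟨χ, hχ, fun s hs' => ?_⟩
    convert hP s hs' using 1
    ext y
    simp only [mem_inter_iff, mem_ofPred_eq]
    constructor
    · rintro ⟨h1, h2⟩
      exact ⟨⟨h1, fun v hv h => e1 v hv ▸ h2 v (hCB hv) h⟩,
        fun v hv h => e2 v hv ▸ h2 v hv.1 h⟩
    · rintro ⟨⟨h1, h2⟩, h3⟩
      refine ⟨h1, fun v hv h => ?_⟩
      by_cases hvC : v ∈ C
      · rw [e1 v hvC]
        exact h2 v hvC h
      · rw [e2 v ⟨hv, hvC⟩]
        exact h3 v ⟨hv, hvC⟩ h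

theorem embed (hs : ∀ x y, adj x y → adj y x)
    (see : ∀ L Y, Big L → P Y → Big fun v => L v ∩ {z | P (Y ∩ {y | adj z y})})
    (fin : ∀ L (F : Set X), Big L → F.Finite → Big fun v => L v \ F)
    [Nonempty X] (Ok : Set V → Prop)
    (start : ∀ S L, Ok S → Big L → ∃ Y : V → Set X, (∀ s ∈ S, P (Y s) ∧ Y s ⊆ L s) ∧
      ∀ (Y' : V → Set X) (F : Set X), F.Finite → (∀ s ∈ S, P (Y' s) ∧ Y' s ⊆ Y s) →
        ∃ ψ, Emb G adj S (fun s => Y' s \ F) ψ)
    {D : Set V} (hD : ∀ A ⊆ D, A.Nonempty → ∃ S, Splits G S A ∧ Ok S) :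
    ∀ (k : ℕ) (A : Set V), A.ncard ≤ k → A ⊆ D → ∀ L, Big L → ∃ φ, Emb G adj A L φ := by
  have base : ∀ L : V → Set X, ∃ φ, Emb G adj ∅ L φ := fun L =>
    ⟨fun _ => Classical.arbitrary X, by simp, by simp, by simp⟩
  intro k
  induction k with
  | zero =>
    intro A hA _ L _
    obtain rfl : A = ∅ := (ncard_eq_zero A.toFinite).1 (Nat.le_zero.1 hA)
    exact base L
  | succ k ih =>
    intro A hA hAD L hL
    rcases A.eq_empty_or_nonempty with rfl | hne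
    · exact base L
    obtain ⟨S, hS, hOk⟩ := hD A hAD hne
    obtain ⟨Y, hY, hY'⟩ := start S L hOk hL
    have hlt : (A \ S).ncard < A.ncard := by
      obtain ⟨s, hs'⟩ := hS.1
      exact ncard_lt_ncard ⟨sdiff_subset, fun h => (h (hS.2.1 hs')).2 hs'⟩ A.toFinite
    obtain ⟨φ, hφ, hP⟩ := components hs see fin hS
      (fun C hC L' hL' => ih C ((ncard_le_ncard hC (A \ S).toFinite).trans (by omega))
        (hC.trans (sdiff_subset.trans hAD)) L' hL')
      _ (A \ S) le_rfl Subset.rfl (fun _ _ _ hb _ => hb) L Y hL fun s hs' => (hY s hs').1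
    obtain ⟨ψ, hψ⟩ := hY' _ (φ '' (A \ S)) ((A \ S).toFinite.image φ)
      fun s hs' => ⟨hP s hs', inter_subset_left⟩
    obtain ⟨χ, hχ, -⟩ := Emb.glue (A := A) (L := L) hs hψ hφ
      (fun s hs' => sdiff_subset.trans (inter_subset_left.trans (hY s hs').2))
      (fun _ _ => Subset.rfl) (fun u hu v hv h => (hψ.2.2 u hu).2 ⟨v, hv, h.symm⟩)
      (fun u hu v hv h => hs _ _ ((hψ.2.2 u hu).1.2 v hv h))
    exact ⟨χ, hχ⟩

end Pool.Agent.Lib.MP_185924_lc.ZY
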