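import Pool.Agent.Lib.MP_185924_lc.ZY.Defs

/-! Examples: closure properties of the two classes, and the wheel with five spokes. -/

set_option autoImplicit false

namespace Pool.Agent.Lib.MP_185924_lc.ZY

open Set

variable {V : Type} {G : SimpleGraph V}

theorem zykovOn_empty : ZykovOn G ∅ := fun _ hA hne =>
  absurd (subset_empty_iff.1 hA) hne.ne_empty

theorem ZykovOn.mono {B B' : Set V} (h : ZykovOn G B) (hB : B' ⊆ B) : ZykovOn G B' :=
  fun A hA => h A (hA.trans hB)

/-- One step of Zykov's construction: `f` labels the components of `B \ S`. -/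
theorem zykovOn_step {B S : Set V} (hS : G.IsIndepSet S) (f : V → ℕ)
    (hf : ∀ a ∈ B \ S, ∀ b ∈ B \ S, G.Adj a b → f a = f b)
    (h1 : ∀ s ∈ S, ∀ u ∈ B \ S, ∀ v ∈ B \ S, G.Adj s u → G.Adj s v → f u = f v → u = v)
    (h : ZykovOn G (B \ S)) : ZykovOn G B := by
  intro A hA hne
  by_cases hAS : (A ∩ S).Nonempty
  · have e : A \ (A ∩ S) ⊆ B \ S := fun x hx => ⟨hA hx.1, fun h' => hx.2 ⟨hx.1, h'⟩⟩
    refine ⟨A ∩ S, ⟨hAS, inter_subset_left, fun s hs u hu v hv a1 a2 hr =>
      h1 s hs.2 u (e hu) v (e hv) a1 a2 ?_⟩, hS.mono inter_subset_right⟩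
    clear hv a2
    induction hr with
    | refl => rfl
    | @tail b c h2 h3 ih =>
      refine ih.trans (hf b ?_ c (e h3.2) h3.1)
      rcases h2.cases_tail with rfl | ⟨_, _, h4⟩
      · exact e hu
      · exact e h4.2
  · exact h A (fun x hx => ⟨hA hx, fun h' => hAS ⟨x, hx, h'⟩⟩) hne

/-- An independent set together with a Zykov graph is a two-level Zykov graph. -/
theorem twoLevel_of_indep {I : Set V} (hI : G.IsIndepSet I) (h : ZykovOn G Iᶜ) : TwoLevel G := by
  intro A hne
  by_cases hAI : (A \ I).Nonempty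
  · refine ⟨A \ I, ⟨hAI, sdiff_subset, fun s _ u hu v _ _ _ hr => ?_⟩, h.mono fun _ hx => hx.2⟩
    have e : ∀ x ∈ A \ (A \ I), x ∈ I := fun x hx => by
      by_contra h'
      exact hx.2 ⟨hx.1, h'⟩
    rcases hr.cases_head with h' | ⟨c, h1, -⟩
    · exact h'
    · exact absurd h1.1 (hI (e u hu) (e c h1.2) h1.1.ne)
  · have hA : A ⊆ I := fun x hx => by
      by_contra h'
      exact hAI ⟨x, hx, h'⟩
    refine ⟨A, ⟨hne, Subset.rfl, fun s _ u hu => absurd hu.1 hu.2⟩, fun A' hA' hne' =>
      ⟨A', ⟨hne', Subset.rfl, fun s _ u hu => absurd hu.1 hu.2⟩, hI.mono (hA'.trans hA)⟩⟩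

/-- the wheel with rim `0, …, 4` and hub `5` -/
def wheel : SimpleGraph (Fin 6) :=
  SimpleGraph.fromRel fun a b => b = 5 ∨ (a.val + 1) % 5 = b.val ∧ a ≠ 5

instance : DecidableRel wheel.Adj := fun a b => by
  unfold wheel
  rw [SimpleGraph.fromRel_adj]
  infer_instance

set_option synthInstance.maxSize 1024 in
theorem twoLevel_wheel : TwoLevel wheel := by
  refine twoLevel_of_indep (I := {5}) (pairwise_singleton _ _) ?_
  refine zykovOn_step (S := {0, 2}) ?_ (fun a => if a = 1 then 0 else 1) ?_ ?_ ?_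
  · simp only [SimpleGraph.isIndepSet_iff, Set.Pairwise, mem_insert_iff, mem_singleton_iff]
    decide
  · simp only [mem_sdiff, mem_compl_iff, mem_insert_iff, mem_singleton_iff]
    decide
  · simp only [mem_sdiff, mem_compl_iff, mem_insert_iff, mem_singleton_iff]
    decide
  refine zykovOn_step (S := {1, 3}) ?_ (fun _ => 0) (fun _ _ _ _ _ => rfl) ?_ ?_
  · simp only [SimpleGraph.isIndepSet_iff, Set.Pairwise, mem_insert_iff, mem_singleton_iff]
    decide
  · simp only [mem_sdiff, mem_compl_iff, mem_insert_iff, mem_singleton_iff]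
    decide
  refine zykovOn_step (S := {4}) (pairwise_singleton _ _) (fun _ => 0) (fun _ _ _ _ _ => rfl) ?_
    (zykovOn_empty.mono ?_)
  · simp only [mem_sdiff, mem_compl_iff, mem_insert_iff, mem_singleton_iff]
    decide
  · intro x
    simp only [mem_sdiff, mem_compl_iff, mem_insert_iff, mem_singleton_iff, mem_empty_iff_false]
    revert x
    decide

theorem wheel_not_three_colourable : ¬ wheel.Colorable 3 := by
  rintro ⟨C⟩
  have h : ∀ f : Fin 6 → Fin 3, ¬ ∀ a b, wheel.Adj a b → f a ≠ f b := by decide +kernel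
  exact h C fun a b hab => C.valid hab

end Pool.Agent.Lib.MP_185924_lc.ZY
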