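import Pool.Agent.Lib.MP_185924_lc.ZY.Tight

/-! Embedding Zykov graphs in wide sets and two-level Zykov graphs in huge sets. -/

set_option autoImplicit false

namespace Pool.Agent.Lib.MP_185924_lc.ZY

open Set

theorem exists_injOn_mem {V X : Type} [Nonempty X] {S : Set V} (hS : S.Finite) (Z : V → Set X)
    (hZ : ∀ s ∈ S, (Z s).Infinite) : ∃ ψ : V → X, InjOn ψ S ∧ ∀ s ∈ S, ψ s ∈ Z s := by
  classical
  induction S, hS using Set.Finite.induction_on with
  | empty => exact ⟨fun _ => Classical.arbitrary X, by simp, by simp⟩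
  | @insert a S ha hS ih =>
    obtain ⟨ψ, h1, h2⟩ := ih fun s hs => hZ s (mem_insert_of_mem _ hs)
    obtain ⟨x, hx1, hx2⟩ := ((hZ a (mem_insert _ _)).sdiff (hS.image ψ)).nonempty
    have e : ∀ s ∈ S, Function.update ψ a x s = ψ s := fun s hs =>
      Function.update_of_ne (fun h : s = a => ha (h ▸ hs)) _ _
    refine ⟨Function.update ψ a x, (injOn_insert ha).2 ⟨fun u hu v hv h => h1 hu hv ?_, ?_⟩, ?_⟩
    · rwa [e u hu, e v hv] at h
    · rintro ⟨s, hs, h⟩
      rw [e s hs, Function.update_self] at h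
      exact hx2 ⟨s, hs, h⟩
    · rintro s (rfl | hs)
      · rwa [Function.update_self]
      · rw [e s hs]
        exact h2 s hs

variable {W : Type} [LinearOrder W]

/-- the columns in which `X` is uncountable -/
def cols (X : Set (W × W)) : Set W := {a | ¬ (X ∩ Col a).Countable}

omit [LinearOrder W] in
theorem cols_mono {X X' : Set (W × W)} (h : X ⊆ X') : cols X ⊆ cols X' :=
  fun _ ha hc => ha (hc.mono (inter_subset_inter_left _ h))

omit [LinearOrder W] in
theorem cols_cover {ι : Type} [Countable ι] {X X' : Set (W × W)} {Z : ι → Set (W × W)}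
    (h : X ⊆ X' ∪ ⋃ i, Z i) : cols X ⊆ cols X' ∪ ⋃ i, cols (Z i) := by
  intro a ha
  by_contra hn
  simp only [cols, mem_union, mem_iUnion, mem_ofPred_eq, not_or, not_exists, not_not] at hn
  refine ha ((hn.1.union (countable_iUnion hn.2)).mono fun x hx => ?_)
  rcases h hx.1 with h' | h'
  · exact Or.inl ⟨h', hx.2⟩
  · obtain ⟨i, hi⟩ := mem_iUnion.1 h'
    exact Or.inr (mem_iUnion.2 ⟨i, hi, hx.2⟩)

omit [LinearOrder W] in
theorem cols_diff {X F : Set (W × W)} (hF : F.Finite) : cols X ⊆ cols (X \ F) :=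
  fun _ ha hc => unc_diff ha hF.countable (hc.mono fun _ hx =>
    mem_inter (mem_sdiff_of_mem hx.1.1 hx.2) hx.1.2)

theorem cols_gt {X : Set (W × W)} {a b : W} (hb : b ∈ cols X) (hab : a < b) :
    b ∈ cols (X ∩ {x | a < x.1}) := fun hc =>
  hb (hc.mono fun x hx =>
    mem_inter (mem_inter hx.1 (show a < x.1 from lt_of_lt_of_eq hab hx.2.symm)) hx.2)

variable {V : Type} [Finite V] {G : SimpleGraph V} {adj : W × W → W × W → Prop}

omit [LinearOrder W] in
theorem embed_one [Nonempty W] (hs : ∀ x y, adj x y → adj y x) {T : Set (W × W)}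
    (hT : ∀ Y a, Y ⊆ T → Y ⊆ Col a → ¬ Y.Countable →
      (cols (T ∩ {z | (Y ∩ {y | adj z y}).Countable})).Finite)
    {D : Set V} (hD : ZykovOn G D) (L : V → Set (W × W))
    (hL : ∀ v ∈ D, L v ⊆ T ∧ (cols (L v)).Infinite) : ∃ φ, Emb G adj D L φ := by
  refine embed (Big := fun L => ∀ v ∈ D, L v ⊆ T ∧ (cols (L v)).Infinite)
    (P := fun Y => Y ⊆ T ∧ (∃ a, Y ⊆ Col a) ∧ ¬ Y.Countable) hs ?_ ?_
    (fun S => G.IsIndepSet S ∧ S ⊆ D) ?_ (D := D) (fun A hA hne => ?_) _ D le_rfl Subset.rfl L hL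
  · rintro L Y hL ⟨h1, ⟨a, h2⟩, h3⟩ v hv
    refine ⟨inter_subset_left.trans (hL v hv).1, fun hfin => (hL v hv).2 ?_⟩
    refine (hfin.union (finite_iUnion fun _ : Unit => hT Y a h1 h2 h3)).subset
      (cols_cover fun z hz => ?_)
    by_cases h : (Y ∩ {y | adj z y}).Countable
    · exact Or.inr (mem_iUnion.2 ⟨(), (hL v hv).1 hz, h⟩)
    · exact Or.inl ⟨hz, inter_subset_left.trans h1, ⟨a, inter_subset_left.trans h2⟩, h⟩
  · exact fun L F hL hF v hv =>
      ⟨sdiff_subset.trans (hL v hv).1, (hL v hv).2.mono (cols_diff hF)⟩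
  · rintro S L ⟨h1, h2⟩ hL
    have h3 : ∀ s, ∃ a, s ∈ S → a ∈ cols (L s) := fun s => by
      by_cases h : s ∈ S
      · obtain ⟨a, ha⟩ := (hL s (h2 h)).2.nonempty
        exact ⟨a, fun _ => ha⟩
      · exact ⟨Classical.arbitrary W, fun h' => absurd h' h⟩
    choose a ha using h3
    refine ⟨fun s => L s ∩ Col (a s), fun s h => ⟨⟨inter_subset_left.trans (hL s (h2 h)).1,
      ⟨a s, inter_subset_right⟩, ha s h⟩, inter_subset_left⟩, fun Y' F hF hY' => ?_⟩
    obtain ⟨ψ, e1, e2⟩ := exists_injOn_mem S.toFinite (fun s => Y' s \ F) fun s h hfin =>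
      unc_diff (hY' s h).1.2.2 hF.countable hfin.countable
    exact ⟨ψ, e1, fun u hu v hv h => absurd h (h1 hu hv h.ne), e2⟩
  · obtain ⟨S, h1, h2⟩ := hD A hA hne
    exact ⟨S, h1, h2, h1.2.1.trans hA⟩

theorem exists_seq [WellFoundedLT W] {C : Set W} (hC : C.Infinite) :
    ∃ α : ℕ → W, StrictMono α ∧ ∀ m, α m ∈ C := by
  have := hC.to_subtype
  obtain ⟨f⟩ : Nonempty (ℕ ↪ C) := ⟨Infinite.natEmbedding C⟩
  obtain ⟨g, hg⟩ := (wellQuasiOrdered_le (α := W)).exists_monotone_subseq fun n => (f n : W)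
  exact ⟨fun n => f (g n), Monotone.strictMono_of_injective (fun _ _ h => hg _ _ h) fun _ _ h =>
    g.injective (f.injective (Subtype.ext h)), fun m => (f (g m)).2⟩

theorem embed_two [WellFoundedLT W] [Uncountable W] (hc : ∀ a : W, (Iic a).Countable)
    (hs : ∀ x y, adj x y → adj y x) {k : ℕ} (hK : NoK adj k univ)
    (hI : ¬ Indep fun _ : Unit => adj) (hG : TwoLevel G) :
    ∃ φ, Emb G adj univ (fun _ => univ) φ := by
  have huniv : ¬ (cols (univ : Set (W × W))).Countable := fun h => by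
    refine not_countable_univ (α := W) (h.mono fun a _ => ?_)
    intro hh
    exact not_countable_univ (α := W)
      ((hh.image Prod.snd).mono fun t _ =>
        mem_image_of_mem Prod.snd (show (a, t) ∈ univ ∩ Col a from ⟨trivial, rfl⟩))
  obtain ⟨B, -, hB, hBt⟩ := tight hc hs hK hI (fun X => ¬ (cols X).Countable)
    (fun X X' a _ _ _ h hh => h (((hc a).union hh).mono fun b hb => by
      rcases le_or_gt b a with h' | h'
      · exact Or.inl h'
      · exact Or.inr (cols_gt hb h'))) huniv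
  refine embed (Big := fun L => ∃ T ⊆ B, ¬ (cols T).Countable ∧ ∀ v, T ⊆ L v)
    (P := fun Y => Y ⊆ B ∧ (cols Y).Infinite) hs ?_ ?_ (ZykovOn G) ?_ (D := univ)
    (fun A _ hne => hG A hne) _ univ le_rfl Subset.rfl _ ⟨B, Subset.rfl, hB, fun _ => subset_univ _⟩
  · rintro L Y ⟨T, h1, h2, h3⟩ ⟨y1, y2⟩
    obtain ⟨α, hα, hα'⟩ := exists_seq y2
    refine ⟨T ∩ {z | ∀ m, ¬ (Y ∩ Col (α m) ∩ {y | adj z y}).Countable},
      inter_subset_left.trans h1, fun hh => h2 ?_, fun v z hz => ⟨h3 v hz.1,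
        inter_subset_left.trans y1, (infinite_range_of_injective hα.injective).mono ?_⟩⟩
    · refine (hh.union (countable_iUnion fun m => not_not.1 (hBt (Y ∩ Col (α m)) (α m)
        (inter_subset_left.trans y1) inter_subset_right (hα' m)))).mono
        (cols_cover fun z hz => ?_)
      by_cases h : ∀ m, ¬ (Y ∩ Col (α m) ∩ {y | adj z y}).Countable
      · exact Or.inl ⟨hz, h⟩
      · push Not at h
        obtain ⟨m, hm⟩ := h
        exact Or.inr (mem_iUnion.2 ⟨m, h1 hz, hm⟩)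
    · rintro _ ⟨m, rfl⟩ hh
      exact hz.2 m (by rwa [inter_right_comm])
  · rintro L F ⟨T, h1, h2, h3⟩ hF
    exact ⟨T \ F, sdiff_subset.trans h1, fun hh => h2 (hh.mono (cols_diff hF)),
      fun v => sdiff_subset_sdiff_left (h3 v)⟩
  · rintro S L hS ⟨T, h1, h2, h3⟩
    obtain ⟨α, hα, hα'⟩ := exists_seq (C := cols T) fun h => h2 h.countable
    have hX : cols (T ∩ ⋃ m, Col (α m)) ⊆ range α := fun a ha => by
      by_contra hn
      refine ha (countable_empty.mono fun x hx => ?_)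
      obtain ⟨m, hm⟩ := mem_iUnion.1 hx.1.2
      exact hn ⟨m, hm.symm.trans hx.2⟩
    have hOm : ∀ X ⊆ T ∩ ⋃ m, Col (α m), ∀ a ∈ cols X, (cols X ∩ Iic a).Finite := by
      intro X hX' a ha
      obtain ⟨m, rfl⟩ := hX (cols_mono hX' ha)
      refine ((finite_Iic m).image α).subset fun b hb => ?_
      obtain ⟨m', rfl⟩ := hX (cols_mono hX' hb.1)
      exact ⟨m', hα.le_iff_le.1 hb.2, rfl⟩
    obtain ⟨T0, t1, t2, t3⟩ := tight hc hs hK hI
      (fun X => X ⊆ T ∩ ⋃ m, Col (α m) ∧ (cols X).Infinite)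
      (fun X X' a hX1 ha hX2 h => ⟨inter_subset_left.trans h.1, fun hh => h.2
        (((hOm X hX1.1 a ha).union hh).subset fun b hb => by
          rcases le_or_gt b a with h' | h'
          · exact Or.inl ⟨cols_mono hX2 hb, h'⟩
          · exact Or.inr (cols_gt hb h'))⟩) (X := T ∩ ⋃ m, Col (α m))
      ⟨Subset.rfl, (infinite_range_of_injective hα.injective).mono (by
        rintro _ ⟨m, rfl⟩ hh
        exact hα' m (hh.mono fun x hx =>
          mem_inter (mem_inter hx.1 (mem_iUnion.2 ⟨m, hx.2⟩)) hx.2))⟩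
    have hT0 : T0 ⊆ T := t1.trans inter_subset_left
    refine ⟨fun _ => T0, fun s _ => ⟨⟨hT0.trans h1, t2.2⟩, hT0.trans (h3 s)⟩,
      fun Y' F hF hY' => embed_one hs (T := T0) (fun Y a y1 y2 y3 => ?_) hS _ fun s hs' =>
        ⟨sdiff_subset.trans (hY' s hs').2, (hY' s hs').1.2.mono (cols_diff hF)⟩⟩
    by_contra hh
    exact t3 Y a y1 y2 y3 ⟨inter_subset_left.trans t1, hh⟩

theorem indep_or_copy [WellFoundedLT W] [Uncountable W] (hc : ∀ a : W, (Iic a).Countable)
    (hs : ∀ x y, adj x y → adj y x) (hirr : ∀ x, ¬ adj x x) (hG : TwoLevel G) :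
    (Indep fun _ : Unit => adj) ∨ ∃ φ : V → W × W, Function.Injective φ ∧
      ∀ u v, G.Adj u v → adj (φ u) (φ v) := by
  by_cases hI : Indep fun _ : Unit => adj
  · exact Or.inl hI
  refine Or.inr ?_
  obtain ⟨k, ⟨e⟩⟩ := Finite.exists_equiv_fin V
  by_cases hK : NoK adj k univ
  · obtain ⟨φ, h1, h2, -⟩ := embed_two hc hs hK hI hG
    exact ⟨φ, injOn_univ.1 h1, fun u v h => h2 u trivial v trivial h⟩
  · obtain ⟨f, -, h⟩ := not_not.1 hK
    refine ⟨f ∘ e, fun u v huv => ?_, fun u v huv => h _ _ fun h' => huv.ne (e.injective h')⟩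
    by_contra hne
    have := h _ _ fun h' => hne (e.injective h')
    rw [show f (e u) = f (e v) from huv] at this
    exact hirr _ this

end Pool.Agent.Lib.MP_185924_lc.ZY
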