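import Pool.Agent.Lib.MP_185924_lc.ZY.Ord
import Pool.Agent.Lib.MP_185924_lc.Main

/-! Several colours: thinning, and tight sets in a single colour. -/

set_option autoImplicit false

namespace Pool.Agent.Lib.MP_185924_lc.ZY

open Set

section General

variable {X K : Type} [Fintype K] {adj : K → X → X → Prop}

/-- cliques of every colour inside `Y` are bounded, with total bound `s` -/
def Bd (adj : K → X → X → Prop) (s : ℕ) (Y : Set X) : Prop :=
  ∃ k : K → ℕ, ∑ c, k c ≤ s ∧ ∀ c, NoK (adj c) (k c) Y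

theorem Bd.mono {s : ℕ} {Y Y' : Set X} (h : Bd adj s Y) (hY : Y' ⊆ Y) : Bd adj s Y' :=
  let ⟨k, h1, h2⟩ := h
  ⟨k, h1, fun c => (h2 c).mono hY⟩

theorem Bd.nb (hs : ∀ c x y, adj c x y → adj c y x) {s : ℕ} {Y : Set X} (h : Bd adj s Y)
    (c : K) {z : X} (hz : z ∈ Y) : ∃ s' < s, Bd adj s' (Y ∩ Nb adj c z) := by
  classical
  obtain ⟨k, h1, h2⟩ := h
  obtain ⟨j, hj⟩ : ∃ j, k c = j + 1 := Nat.exists_eq_succ_of_ne_zero fun e =>
    not_noK_zero Y (e ▸ h2 c)
  refine ⟨∑ d, Function.update k c j d, lt_of_lt_of_le ?_ h1, _, le_rfl, fun d => ?_⟩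
  · refine Finset.sum_lt_sum (fun d _ => ?_) ⟨c, Finset.mem_univ _, by simp [hj]⟩
    by_cases e : d = c
    · subst e
      simp [hj]
    · simp [Function.update_of_ne e]
  · by_cases e : d = c
    · subst e
      rw [Function.update_self]
      exact NoK.nb (hs d) (hj ▸ h2 d) hz
    · rw [Function.update_of_ne e]
      exact (h2 d).mono inter_subset_left

theorem col_thin' (hs : ∀ c x y, adj c x y → adj c y x) (s : ℕ) : ∀ Y : Set X, Bd adj s Y →
    ¬ Y.Countable → ∃ Y' ⊆ Y, ¬ Y'.Countable ∧ ∀ c, ∀ z ∈ Y', (Y' ∩ Nb adj c z).Countable := by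
  induction s using Nat.strong_induction_on with
  | _ s ih =>
    intro Y hK hY
    by_cases h : ∀ c, ∀ z ∈ Y, (Y ∩ Nb adj c z).Countable
    · exact ⟨Y, Subset.rfl, hY, h⟩
    · push Not at h
      obtain ⟨c, z, hz, hz'⟩ := h
      obtain ⟨s', h0, h0'⟩ := hK.nb hs c hz
      obtain ⟨Y', h1, h2⟩ := ih s' h0 _ h0' hz'
      exact ⟨Y', h1.trans inter_subset_left, h2⟩

end General

variable {W K : Type} [LinearOrder W] [WellFoundedLT W] [Fintype K]
  {adj : K → W × W → W × W → Prop}

/-- later points of `X` see countably many points of earlier columns of `X` -/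
def LS (adj : W × W → W × W → Prop) (X : Set (W × W)) : Prop :=
  ∀ a, ∀ y ∈ X, a < y.1 → (X ∩ Col a ∩ {x | adj y x}).Countable

omit [WellFoundedLT W] in
theorem LS.mono {adj : W × W → W × W → Prop} {X X' : Set (W × W)} (h : LS adj X) (hX : X' ⊆ X) :
    LS adj X' := fun a y hy ha =>
  (h a y (hX hy) ha).mono (inter_subset_inter_left _ (inter_subset_inter_left _ hX))

theorem wide_thin' (hc : ∀ a : W, (Iic a).Countable) (hs : ∀ c x y, adj c x y → adj c y x)
    (α : ℕ → W) (hα : StrictMono α) (s : ℕ) : ∀ X : Set (W × W), Bd adj s X →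
      {m | ¬ (X ∩ Col (α m)).Countable}.Infinite → (∀ c, LS (adj c) X) → Indep adj := by
  induction s using Nat.strong_induction_on with
  | _ s ih =>
    intro X hK h2 hd
    by_cases h : ∃ c, ∃ z ∈ X, {m | ¬ (X ∩ Nb adj c z ∩ Col (α m)).Countable}.Infinite
    · obtain ⟨c, z, hz, hz'⟩ := h
      obtain ⟨s', h0, h0'⟩ := hK.nb hs c hz
      exact ih s' h0 _ h0' hz' fun d => (hd d).mono inter_subset_left
    push Not at h
    have key : ∀ m, ¬ (X ∩ Col (α m)).Countable → ∃ U ⊆ X ∩ Col (α m), ¬ U.Countable ∧ ∃ b : ℕ,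
        (∀ c, ∀ z ∈ U, (U ∩ Nb adj c z).Countable) ∧
        (∀ c, ∀ z ∈ U, ∀ m', b ≤ m' → (X ∩ Col (α m') ∩ Nb adj c z).Countable) := by
      intro m hm
      obtain ⟨Y, a1, a2, a3⟩ := col_thin' hs _ _ (hK.mono inter_subset_left) hm
      obtain ⟨b, -, hb⟩ := unc_fiber a2 (countable_univ (α := ℕ))
        (fun z b => ∀ c m', b ≤ m' → (X ∩ Col (α m') ∩ Nb adj c z).Countable) (by
          intro z hz
          obtain ⟨b, hb⟩ := (finite_iUnion fun c => h c z (a1 hz).1).bddAbove
          refine ⟨b + 1, trivial, fun c m' hm' => ?_⟩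
          by_contra hne
          have : m' ≤ b := hb (mem_iUnion.2 ⟨c, by
            rw [mem_ofPred_eq, inter_right_comm]; exact hne⟩)
          omega)
      exact ⟨_, fun z hz => a1 hz.1, hb, b, fun c z hz =>
        (a3 c z hz.1).mono (inter_subset_inter_left _ fun w hw => hw.1), fun c z hz => hz.2 c⟩
    choose! U hU1 hU2 b k2 k3 using key
    have hnx : ∀ m : ℕ, ∃ m', ¬ (X ∩ Col (α m')).Countable ∧ max m (b m) < m' := fun m => by
      obtain ⟨m', a, a'⟩ := h2.exists_gt (max m (b m))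
      exact ⟨m', a, a'⟩
    choose nx hnx1 hnx2 using hnx
    let φ : ℕ → ℕ := fun i => Nat.rec (nx 0) (fun _ m => nx m) i
    have φs : ∀ i, φ (i + 1) = nx (φ i) := fun i => rfl
    have φI : ∀ i, ¬ (X ∩ Col (α (φ i))).Countable := fun i => by
      cases i with
      | zero => exact hnx1 0
      | succ i => exact hnx1 _
    have φm : StrictMono φ := strictMono_nat_of_lt_succ fun i => by
      rw [φs]; exact lt_of_le_of_lt (le_max_left _ _) (hnx2 _)
    have φb : ∀ i j, i < j → b (φ i) ≤ φ j := fun i j h => by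
      have : φ (i + 1) ≤ φ j := φm.monotone h
      rw [φs] at this
      exact ((le_max_right _ _).trans (hnx2 _).le).trans this
    refine indep_of_countable hc hs (α ∘ φ) (hα.comp φm) (fun i => U (φ i))
      (fun i z hz => (hU1 _ (φI i) hz).2) (fun i => hU2 _ (φI i)) ?_
    intro c i j x hx
    rcases lt_trichotomy i j with h | h | h
    · have hx' := hU1 _ (φI j) hx
      exact (hd c _ x hx'.1 (lt_of_lt_of_eq (hα (φm h)) hx'.2.symm)).mono
        (inter_subset_inter_left _ (hU1 _ (φI i)))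
    · subst h
      exact k2 _ (φI i) c x hx
    · exact (k3 _ (φI j) c x hx _ (φb _ _ h)).mono (inter_subset_inter_left _ (hU1 _ (φI i)))

omit [WellFoundedLT W] in
/-- a tight subset, or a wide subset in which later points see little of earlier columns -/
theorem tight_or (adj : W × W → W × W → Prop) {X : Set (W × W)} (hX : (cols X).Infinite)
    (hOm : ∀ a ∈ cols X, (cols X ∩ Iic a).Finite) :
    (∃ T ⊆ X, (cols T).Infinite ∧ ∀ Y a, Y ⊆ T → Y ⊆ Col a → ¬ Y.Countable →
      (cols (T ∩ {z | (Y ∩ {y | adj z y}).Countable})).Finite) ∨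
    ∃ T ⊆ X, (cols T).Infinite ∧ LS adj T := by
  rw [or_iff_not_imp_left]
  intro hcon
  push Not at hcon
  have step : ∀ D : {D : Set (W × W) // D ⊆ X ∧ (cols D).Infinite},
      ∃ D' : {D : Set (W × W) // D ⊆ X ∧ (cols D).Infinite},
      ∃ Y a, Y ⊆ D.1 ∧ Y ⊆ Col a ∧ ¬ Y.Countable ∧ D'.1 ⊆ D.1 ∧
        D'.1 ⊆ {z | (Y ∩ {y | adj z y}).Countable} ∧ D'.1 ⊆ {x | a < x.1} := by
    rintro ⟨D, d1, d2⟩
    obtain ⟨Y, a, y1, y2, y3, y4⟩ := hcon D d1 d2
    have ha : a ∈ cols X := fun h => y3 (h.mono (subset_inter (y1.trans d1) y2))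
    exact ⟨⟨D ∩ {z | (Y ∩ {y | adj z y}).Countable} ∩ {x | a < x.1},
      (inter_subset_left.trans inter_subset_left).trans d1,
      fun hh => y4 (((hOm a ha).union hh).subset fun b hb => by
        rcases le_or_gt b a with h' | h'
        · exact Or.inl ⟨cols_mono (inter_subset_left.trans d1) hb, h'⟩
        · exact Or.inr (cols_gt hb h'))⟩,
      Y, a, y1, y2, y3, inter_subset_left.trans inter_subset_left,
      inter_subset_left.trans inter_subset_right, inter_subset_right⟩
  choose nx Y a k2 k3 k1 k5 k6 k7 using step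
  let D : ℕ → {D : Set (W × W) // D ⊆ X ∧ (cols D).Infinite} :=
    fun i => nx^[i] ⟨X, Subset.rfl, hX⟩
  have hD : ∀ i, D (i + 1) = nx (D i) := fun i => Function.iterate_succ_apply' nx i _
  have anti : Antitone fun i => (D i).1 := antitone_nat_of_succ_le fun i => by
    rw [hD]; exact k5 _
  have later : ∀ i j, i < j → Y (D j) ⊆ (nx (D i)).1 := fun i j h => by
    rw [← hD]; exact (k2 _).trans (anti h)
  have hα : StrictMono fun i => a (D i) := fun i j h => by
    obtain ⟨y, hy⟩ : (Y (D j)).Nonempty := by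
      by_contra hne
      rw [not_nonempty_iff_eq_empty] at hne
      exact k1 (D j) (by rw [hne]; exact countable_empty)
    exact lt_of_lt_of_eq (k7 _ (later i j h hy)) (k3 _ hy)
  refine ⟨⋃ i, Y (D i), iUnion_subset fun i => (k2 _).trans (D i).2.1,
    (infinite_range_of_injective hα.injective).mono ?_, fun b y hy hb => ?_⟩
  · rintro _ ⟨i, rfl⟩ hh
    exact k1 (D i) (hh.mono fun y hy => mem_inter (mem_iUnion.2 ⟨i, hy⟩) (k3 _ hy))
  · obtain ⟨j, hj⟩ := mem_iUnion.1 hy
    by_cases hbr : ∃ i, a (D i) = b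
    · obtain ⟨i, rfl⟩ := hbr
      refine (k6 _ (later i j (hα.lt_iff_lt.1 (lt_of_lt_of_eq hb (k3 _ hj))) hj)).mono
        (inter_subset_inter_left _ fun w hw => ?_)
      obtain ⟨i', hi'⟩ := mem_iUnion.1 hw.1
      obtain rfl : i' = i := hα.injective ((k3 _ hi').symm.trans hw.2)
      exact hi'
    · refine countable_empty.mono fun w hw => ?_
      obtain ⟨i', hi'⟩ := mem_iUnion.1 hw.1.1
      exact hbr ⟨i', (k3 _ hi').symm.trans hw.1.2⟩

theorem thin_multi (hc : ∀ a : W, (Iic a).Countable) (hs : ∀ c x y, adj c x y → adj c y x)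
    {s : ℕ} (hK : Bd adj s univ) (Bad : K → Set (W × W) → Prop)
    (hm : ∀ c X X', Bad c X → X' ⊆ X → Bad c X')
    (hB : ∀ c T, Bad c T → (cols T).Infinite → ¬ ∀ Y a, Y ⊆ T → Y ⊆ Col a → ¬ Y.Countable →
      (cols (T ∩ {z | (Y ∩ {y | adj c z y}).Countable})).Finite) (S : Finset K) :
    ∀ X : Set (W × W), (cols X).Infinite → (∀ a ∈ cols X, (cols X ∩ Iic a).Finite) →
      (∀ c, (c ∈ S ∧ Bad c X) ∨ LS (adj c) X) → Indep adj := by
  classical
  induction S using Finset.induction_on with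
  | empty =>
    intro X h1 _ h3
    obtain ⟨α, hα, hα'⟩ := exists_seq h1
    exact wide_thin' hc hs α hα s X (hK.mono (subset_univ _))
      (infinite_univ.mono fun m _ => hα' m) fun c => (h3 c).resolve_left (by simp)
  | insert c S _ ih =>
    intro X h1 h2 h3
    have key : ∃ T ⊆ X, (cols T).Infinite ∧ LS (adj c) T := by
      rcases h3 c with h | h
      · rcases tight_or (adj c) h1 h2 with ⟨T, t1, t2, t3⟩ | h'
        · exact absurd t3 (hB c T (hm _ _ _ h.2 t1) t2)
        · exact h'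
      · exact ⟨X, Subset.rfl, h1, h⟩
    obtain ⟨T, t1, t2, t3⟩ := key
    refine ih T t2 (fun a ha => (h2 a (cols_mono t1 ha)).subset
      (inter_subset_inter_left _ (cols_mono t1))) fun d => ?_
    rcases h3 d with h | h
    · rcases Finset.mem_insert.1 h.1 with rfl | h'
      · exact Or.inr t3
      · exact Or.inl ⟨h', hm _ _ _ h.2 t1⟩
    · exact Or.inr (h.mono t1)

end Pool.Agent.Lib.MP_185924_lc.ZY
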