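import Pool.Agent.Lib.MP_185924_lc.ZY.Main

/-! Translation between `ω₁ × ω₁` and the ordinals below `ω₁ * ω₁`. -/

set_option autoImplicit false

namespace Pool.Agent.Lib.MP_185924_lc.ZY

open Set

/-- the well-order of type `ω₁` -/
abbrev W1 : Type := (Cardinal.aleph.{0} 1).ord.ToType

theorem countable_Iic_W1 (a : W1) : (Iic a).Countable := by
  rw [← Iio_insert, countable_insert, ← Cardinal.le_aleph0_iff_set_countable, ← Order.lt_succ_iff,
    Cardinal.succ_aleph0]
  simpa using Cardinal.mk_Iio_lt a (by simp)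

theorem uncountable_W1 : Uncountable W1 := by
  rw [← Cardinal.aleph0_lt_mk_iff, Cardinal.mk_ord_toType]
  exact Cardinal.aleph0_lt_aleph_one

theorem mul_add_lt {w a b s t : Ordinal.{0}} (h : a < b) (hs : s < w) : w * a + s < w * b + t :=
  calc w * a + s < w * a + w := by gcongr
    _ = w * (a + 1) := by rw [mul_add, mul_one]
    _ ≤ w * b := by gcongr; exact Order.add_one_le_of_lt h
    _ ≤ w * b + t := le_self_add

/-- the ordinal of a point -/
noncomputable def pos (x : W1 × W1) : Ordinal.{0} :=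
  (Cardinal.aleph 1).ord * (x.1 : Ordinal.{0}) + (x.2 : Ordinal.{0})

theorem coe_lt (a : W1) : (a : Ordinal.{0}) < (Cardinal.aleph 1).ord := (Ordinal.ToType.toOrd a).2

theorem coe_mono : StrictMono fun a : W1 => (a : Ordinal.{0}) := fun _ _ h =>
  Ordinal.ToType.mk.symm.strictMono h

theorem pos_lt (x : W1 × W1) : pos x < (Cardinal.aleph 1).ord * (Cardinal.aleph 1).ord := by
  simpa [pos] using mul_add_lt (t := 0) (coe_lt x.1) (coe_lt x.2)

theorem pos_inj : Function.Injective pos := by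
  rintro ⟨a, s⟩ ⟨b, t⟩ h
  have hab : a = b := by
    rcases lt_trichotomy a b with h' | h' | h'
    · exact absurd h (ne_of_lt (mul_add_lt (coe_mono h') (coe_lt s)))
    · exact h'
    · exact absurd h (ne_of_gt (mul_add_lt (coe_mono h') (coe_lt t)))
  subst hab
  exact Prod.ext rfl (coe_mono.injective (add_left_cancel h))

theorem left_of_indep {K C : Type} (c : Sym2 Ordinal.{0} → C) (z : C)
    (adj : K → W1 × W1 → W1 × W1 → Prop)
    (hadj : ∀ x y, x ≠ y → c s(pos x, pos y) ≠ z → ∃ i, adj i x y) (hI : Indep adj) :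
    ∃ f : Ordinal.{0} → Ordinal.{0},
      StrictMonoOn f (Set.Iio ((Cardinal.aleph 1).ord * Ordinal.omega0)) ∧
      (∀ α, α < (Cardinal.aleph 1).ord * Ordinal.omega0 →
          f α < (Cardinal.aleph 1).ord * (Cardinal.aleph 1).ord) ∧
      (∀ α β, α < β → β < (Cardinal.aleph 1).ord * Ordinal.omega0 → c s(f α, f β) = z) := by
  obtain ⟨α, hα, p, hp, hind⟩ := hI
  set w : Ordinal.{0} := (Cardinal.aleph 1).ord with hw
  have hw0 : 0 < w := (Cardinal.isSuccLimit_ord (Cardinal.aleph0_le_aleph 1)).bot_lt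
  have hdiv : ∀ β : Ordinal.{0}, ∃ i : ℕ, β < w * Ordinal.omega0 → β / w = i := fun β => by
    by_cases h : β < w * Ordinal.omega0
    · obtain ⟨i, hi⟩ := Ordinal.lt_omega0.1 ((Ordinal.lt_mul_iff_div_lt hw0.ne').1 h)
      exact ⟨i, fun _ => hi⟩
    · exact ⟨0, fun h' => absurd h' h⟩
  choose q hq using hdiv
  let r : Ordinal.{0} → W1 := fun β => Ordinal.ToType.mk ⟨β % w, Ordinal.mod_lt β hw0.ne'⟩
  have hlex : ∀ a b, a < b → b < w * Ordinal.omega0 → q a < q b ∨ (q a = q b ∧ r a < r b) := by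
    intro a b hab hb
    have ea := Ordinal.div_add_mod a w
    have eb := Ordinal.div_add_mod b w
    rw [hq a (hab.trans hb)] at ea
    rw [hq b hb] at eb
    rcases lt_trichotomy (q a) (q b) with h | h | h
    · exact Or.inl h
    · refine Or.inr ⟨h, Ordinal.ToType.mk.strictMono ?_⟩
      have : w * (q a : Ordinal.{0}) + a % w < w * (q a : Ordinal.{0}) + b % w := by
        rw [ea]; rw [← h] at eb; rw [eb]; exact hab
      exact (lt_of_add_lt_add_left this : a % w < b % w)
    · exfalso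
      have := mul_add_lt (t := a % w) (show (q b : Ordinal.{0}) < q a by exact_mod_cast h)
        (Ordinal.mod_lt b hw0.ne')
      rw [ea, eb] at this
      exact lt_asymm hab this
  have hmono : ∀ a b, a < b → b < w * Ordinal.omega0 →
      pos (α (q a), p (q a) (r a)) < pos (α (q b), p (q b) (r b)) := by
    intro a b hab hb
    rcases hlex a b hab hb with h | ⟨h, h'⟩
    · exact mul_add_lt (coe_mono (hα h)) (coe_lt _)
    · rw [h]
      exact add_lt_add_right (coe_mono (hp _ h')) _
  refine ⟨fun β => pos (α (q β), p (q β) (r β)), fun a _ b hb hab => hmono a b hab hb,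
    fun a _ => pos_lt _, fun a b hab hb => ?_⟩
  by_contra hne
  obtain ⟨i, hi⟩ := hadj _ _ (fun e => (hmono a b hab hb).ne (congrArg pos e)) hne
  refine hind (q a) (r a) (q b) (r b) (fun e => ?_) i hi
  have := hmono a b hab hb
  rw [(Prod.mk.inj e).1, (Prod.mk.inj e).2] at this
  exact lt_irrefl _ this

theorem main_two {V : Type} [Finite V] {G : SimpleGraph V} (hG : TwoLevel G)
    (c : Sym2 Ordinal.{0} → Fin 2) :
    (∃ f : Ordinal.{0} → Ordinal.{0},
        StrictMonoOn f (Set.Iio ((Cardinal.aleph 1).ord * Ordinal.omega0)) ∧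
        (∀ α, α < (Cardinal.aleph 1).ord * Ordinal.omega0 →
            f α < (Cardinal.aleph 1).ord * (Cardinal.aleph 1).ord) ∧
        (∀ α β, α < β → β < (Cardinal.aleph 1).ord * Ordinal.omega0 → c s(f α, f β) = 0)) ∨
    ∃ g : V → Ordinal.{0}, Function.Injective g ∧
      (∀ v, g v < (Cardinal.aleph 1).ord * (Cardinal.aleph 1).ord) ∧
      ∀ u v, G.Adj u v → c s(g u, g v) = 1 := by
  have := uncountable_W1
  rcases indep_or_copy (adj := fun x y => x ≠ y ∧ c s(pos x, pos y) = 1) countable_Iic_W1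
    (fun x y h => ⟨h.1.symm, by rw [Sym2.eq_swap]; exact h.2⟩) (fun x h => h.1 rfl) hG with
    h | ⟨φ, h1, h2⟩
  · exact Or.inl (left_of_indep c 0 _ (fun x y hxy hc => ⟨(), hxy, by omega⟩) h)
  · exact Or.inr ⟨pos ∘ φ, pos_inj.comp h1, fun v => pos_lt _, fun u v h => (h2 u v h).2⟩

end Pool.Agent.Lib.MP_185924_lc.ZY
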