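import Pool.Agent.Lib.MP_185924_lc.ZY.Embed
import Pool.Agent.Lib.MP_185924_lc.Alg

/-! Tight sets in a graph with bounded cliques and without a large independent set. -/

set_option autoImplicit false

namespace Pool.Agent.Lib.MP_185924_lc.ZY

open Set

section General

variable {X : Type} {adj : X → X → Prop}

/-- no `k` pairwise adjacent points in `Y` -/
def NoK (adj : X → X → Prop) (k : ℕ) (Y : Set X) : Prop :=
  ¬ ∃ f : Fin k → X, (∀ i, f i ∈ Y) ∧ ∀ i j, i ≠ j → adj (f i) (f j)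

theorem not_noK_zero (Y : Set X) : ¬ NoK adj 0 Y := fun h =>
  h ⟨Fin.elim0, fun i => i.elim0, fun i => i.elim0⟩

theorem NoK.mono {k : ℕ} {Y Y' : Set X} (h : NoK adj k Y) (hY : Y' ⊆ Y) : NoK adj k Y' :=
  fun ⟨f, h1, h2⟩ => h ⟨f, fun i => hY (h1 i), h2⟩

theorem NoK.nb (hs : ∀ x y, adj x y → adj y x) {k : ℕ} {Y : Set X} (h : NoK adj (k + 1) Y)
    {z : X} (hz : z ∈ Y) : NoK adj k (Y ∩ {y | adj z y}) := by
  rintro ⟨f, h1, h2⟩
  refine h ⟨Fin.cons z f, fun i => ?_, fun i j hij => ?_⟩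
  · refine Fin.cases ?_ (fun i => ?_) i
    · exact hz
    · exact (h1 i).1
  · revert hij
    refine Fin.cases ?_ (fun i => ?_) i <;> refine Fin.cases ?_ (fun j => ?_) j
    · exact fun h => absurd rfl h
    · exact fun _ => (h1 j).2
    · exact fun _ => hs _ _ (h1 i).2
    · exact fun h => h2 i j fun e => h (e ▸ rfl)

theorem col_thin (hs : ∀ x y, adj x y → adj y x) : ∀ (k : ℕ) (Y : Set X), NoK adj k Y →
    ¬ Y.Countable → ∃ Y' ⊆ Y, ¬ Y'.Countable ∧ ∀ z ∈ Y', (Y' ∩ {y | adj z y}).Countable := by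
  intro k
  induction k with
  | zero => exact fun Y h => absurd h (not_noK_zero Y)
  | succ k ih =>
    intro Y hK hY
    by_cases h : ∀ z ∈ Y, (Y ∩ {y | adj z y}).Countable
    · exact ⟨Y, Subset.rfl, hY, h⟩
    · push Not at h
      obtain ⟨z, hz, hz'⟩ := h
      obtain ⟨Y', h1, h2⟩ := ih _ (hK.nb hs hz) hz'
      exact ⟨Y', h1.trans inter_subset_left, h2⟩

end General

variable {W : Type} [LinearOrder W] [WellFoundedLT W] {adj : W × W → W × W → Prop}

theorem wide_thin (hc : ∀ a : W, (Iic a).Countable) (hs : ∀ x y, adj x y → adj y x)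
    (α : ℕ → W) (hα : StrictMono α) : ∀ (k : ℕ) (X : Set (W × W)), NoK adj k X →
      {m | ¬ (X ∩ Col (α m)).Countable}.Infinite →
      (∀ m m', m < m' → ∀ y ∈ X ∩ Col (α m'), (X ∩ Col (α m) ∩ {x | adj y x}).Countable) →
      Indep fun _ : Unit => adj := by
  intro k
  induction k with
  | zero => exact fun Y h => absurd h (not_noK_zero Y)
  | succ k ih =>
    intro X hK h2 hd
    by_cases h : ∃ z ∈ X, {m | ¬ (X ∩ {y | adj z y} ∩ Col (α m)).Countable}.Infinite
    · obtain ⟨z, hz, hz'⟩ := h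
      exact ih _ (hK.nb hs hz) hz' fun m m' hm y hy =>
        (hd m m' hm y ⟨hy.1.1, hy.2⟩).mono
          (inter_subset_inter_left _ (inter_subset_inter_left _ inter_subset_left))
    push Not at h
    have key : ∀ m, ¬ (X ∩ Col (α m)).Countable → ∃ U ⊆ X ∩ Col (α m), ¬ U.Countable ∧ ∃ b : ℕ,
        (∀ z ∈ U, (U ∩ {y | adj z y}).Countable) ∧
        (∀ z ∈ U, ∀ m', b ≤ m' → (X ∩ Col (α m') ∩ {y | adj z y}).Countable) := by
      intro m hm
      obtain ⟨Y, a1, a2, a3⟩ := col_thin hs _ _ (hK.mono inter_subset_left) hm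
      obtain ⟨b, -, hb⟩ := unc_fiber a2 (countable_univ (α := ℕ))
        (fun z b => ∀ m', b ≤ m' → (X ∩ Col (α m') ∩ {y | adj z y}).Countable) (by
          intro z hz
          obtain ⟨b, hb⟩ := (h z (a1 hz).1).bddAbove
          refine ⟨b + 1, trivial, fun m' hm' => ?_⟩
          by_contra hne
          have : m' ≤ b := hb (by rw [mem_ofPred_eq, inter_right_comm]; exact hne)
          omega)
      exact ⟨_, fun z hz => a1 hz.1, hb, b, fun z hz =>
        (a3 z hz.1).mono (inter_subset_inter_left _ fun w hw => hw.1), fun z hz => hz.2⟩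
    choose! U hU1 hU2 b k2 k3 using key
    have hnx : ∀ m : ℕ, ∃ m', ¬ (X ∩ Col (α m')).Countable ∧ max m (b m) < m' := fun m => by
      obtain ⟨m', a, a'⟩ := h2.exists_gt (max m (b m))
      exact ⟨m', a, a'⟩
    choose nx hnx1 hnx2 using hnx
    let φ : ℕ → ℕ := fun i => Nat.rec (nx 0) (fun _ m => nx m) i
    have φs : ∀ i, φ (i + 1) = nx (φ i) := fun i => rfl
    have φI : ∀ i, ¬ (X ∩ Col (α (φ i))).Countable := fun i => by
      cases i with
      | zero => exact hnx1 0
      | succ i => exact hnx1 _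
    have φm : StrictMono φ := strictMono_nat_of_lt_succ fun i => by
      rw [φs]; exact lt_of_le_of_lt (le_max_left _ _) (hnx2 _)
    have φb : ∀ i j, i < j → b (φ i) ≤ φ j := fun i j h => by
      have : φ (i + 1) ≤ φ j := φm.monotone h
      rw [φs] at this
      exact ((le_max_right _ _).trans (hnx2 _).le).trans this
    refine indep_of_countable hc (fun _ => hs) (α ∘ φ) (hα.comp φm) (fun i => U (φ i))
      (fun i z hz => (hU1 _ (φI i) hz).2) (fun i => hU2 _ (φI i)) ?_
    intro c i j x hx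
    rcases lt_trichotomy i j with h | h | h
    · exact (hd _ _ (φm h) x (hU1 _ (φI j) hx)).mono (inter_subset_inter_left _ (hU1 _ (φI i)))
    · subst h
      exact k2 _ (φI i) x hx
    · exact (k3 _ (φI j) x hx _ (φb _ _ h)).mono (inter_subset_inter_left _ (hU1 _ (φI i)))

/-- Every big set has a big subset in which each uncountable column subset is seen by all points
outside a small set. -/
theorem tight (hc : ∀ a : W, (Iic a).Countable) (hs : ∀ x y, adj x y → adj y x) {k : ℕ}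
    (hK : NoK adj k univ) (hI : ¬ Indep fun _ : Unit => adj) (Big : Set (W × W) → Prop)
    (hB : ∀ X X' a, Big X → ¬ (X ∩ Col a).Countable → X' ⊆ X → Big X' →
      Big (X' ∩ {x | a < x.1})) {X : Set (W × W)} (hX : Big X) :
    ∃ X' ⊆ X, Big X' ∧ ∀ Y a, Y ⊆ X' → Y ⊆ Col a → ¬ Y.Countable →
      ¬ Big (X' ∩ {z | (Y ∩ {y | adj z y}).Countable}) := by
  by_contra hcon
  push Not at hcon
  have step : ∀ D : {D : Set (W × W) // D ⊆ X ∧ Big D}, ∃ D' : {D : Set (W × W) // D ⊆ X ∧ Big D},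
      ∃ Y a, Y ⊆ D.1 ∧ Y ⊆ Col a ∧ ¬ Y.Countable ∧ D'.1 ⊆ D.1 ∧
        D'.1 ⊆ {z | (Y ∩ {y | adj z y}).Countable} ∧ D'.1 ⊆ {x | a < x.1} := by
    rintro ⟨D, d1, d2⟩
    obtain ⟨Y, a, y1, y2, y3, y4⟩ := hcon D d1 d2
    exact ⟨⟨D ∩ {z | (Y ∩ {y | adj z y}).Countable} ∩ {x | a < x.1},
      (inter_subset_left.trans inter_subset_left).trans d1,
      hB D _ a d2 (fun h => y3 (h.mono (subset_inter y1 y2))) inter_subset_left y4⟩,
      Y, a, y1, y2, y3, inter_subset_left.trans inter_subset_left,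
      inter_subset_left.trans inter_subset_right, inter_subset_right⟩
  choose nx Y a k2 k3 k1 k5 k6 k7 using step
  let D : ℕ → {D : Set (W × W) // D ⊆ X ∧ Big D} := fun i => nx^[i] ⟨X, Subset.rfl, hX⟩
  have hD : ∀ i, D (i + 1) = nx (D i) := fun i => Function.iterate_succ_apply' nx i _
  have anti : Antitone fun i => (D i).1 := antitone_nat_of_succ_le fun i => by
    rw [hD]; exact k5 _
  have later : ∀ i j, i < j → Y (D j) ⊆ (nx (D i)).1 := fun i j h => by
    rw [← hD]; exact (k2 _).trans (anti h)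
  have hα : StrictMono fun i => a (D i) := fun i j h => by
    obtain ⟨y, hy⟩ : (Y (D j)).Nonempty := by
      by_contra hne
      rw [not_nonempty_iff_eq_empty] at hne
      exact k1 (D j) (by rw [hne]; exact countable_empty)
    exact lt_of_lt_of_eq (k7 _ (later i j h hy)) (k3 _ hy)
  have hmem : ∀ m y, y ∈ (⋃ i, Y (D i)) → y ∈ Col (a (D m)) → y ∈ Y (D m) := by
    intro m y hy hy'
    obtain ⟨i, hi⟩ := mem_iUnion.1 hy
    have h2 : y.1 = a (D i) := k3 _ hi
    have h3 : y.1 = a (D m) := hy'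
    have : i = m := hα.injective (h2.symm.trans h3)
    exact this ▸ hi
  refine hI (wide_thin hc hs (fun i => a (D i)) hα k (⋃ i, Y (D i)) (hK.mono (subset_univ _))
    (infinite_univ.mono fun i _ hh => k1 (D i) (hh.mono fun y hy =>
      mem_inter (mem_iUnion.2 ⟨i, hy⟩) (k3 _ hy))) fun m m' h y hy => ?_)
  exact (k6 _ (later m m' h (hmem m' y hy.1 hy.2))).mono
    (inter_subset_inter_left _ fun w hw => hmem m w hw.1 hw.2)

end Pool.Agent.Lib.MP_185924_lc.ZY
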